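import Pool.Agent.Helper14.BSC.Stmts

set_option autoImplicit false

namespace Pool.Agent.Helper14.BSC

section

variable {k Ω : Type} [Field k] [Field Ω] [Algebra k Ω] {p : ℕ} [Fact p.Prime]

theorem plc_pi_ne (Lc : Loc k Ω p) : Lc.π ≠ 0 := by
  intro h
  have := Lc.posπ
  rw [h, map_zero, norm_zero] at this
  exact lt_irrefl _ this

theorem plc_piN_ne (D : Sec k Ω) (Lc : Loc k Ω p) : piN D Lc ≠ 0 := by
  intro h
  have h1 : ((piN D Lc : NN D Lc.S₁) : Ω) = 0 := by rw [h]; rfl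
  have h2 : ((Lc.π : Acl k Ω) : Ω) = 0 := h1
  exact plc_pi_ne Lc (Subtype.ext h2)

/-- `x ∈ π ^ n B` -/
def plcPB (D : Sec k Ω) (Lc : Loc k Ω p) (B : ValuationSubring (NN D Lc.S₁)) (n : ℕ)
    (x : NN D Lc.S₁) : Prop := x / piN D Lc ^ n ∈ B

variable {D : Sec k Ω} {Lc : Loc k Ω p} {B : ValuationSubring (NN D Lc.S₁)}

theorem plc_add {n : ℕ} {x y : NN D Lc.S₁} (hx : plcPB D Lc B n x) (hy : plcPB D Lc B n y) :
    plcPB D Lc B n (x + y) := by
  unfold plcPB at *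
  rw [add_div]
  exact add_mem hx hy

theorem plc_sub {n : ℕ} {x y : NN D Lc.S₁} (hx : plcPB D Lc B n x) (hy : plcPB D Lc B n y) :
    plcPB D Lc B n (x - y) := by
  unfold plcPB at *
  rw [sub_div]
  exact sub_mem hx hy

theorem plc_mul {n m : ℕ} {x y : NN D Lc.S₁} (hx : plcPB D Lc B n x) (hy : plcPB D Lc B m y) :
    plcPB D Lc B (n + m) (x * y) := by
  unfold plcPB at *
  have h : x * y / piN D Lc ^ (n + m) = (x / piN D Lc ^ n) * (y / piN D Lc ^ m) := by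
    rw [pow_add, mul_div_mul_comm]
  rw [h]
  exact mul_mem hx hy

theorem plc_inc (hO : Over D Lc B) (n : ℕ) (c : FF Lc.S₁) :
    plcPB D Lc B n (inc D Lc.S₁ c) ↔ nm Lc c ≤ nm Lc Lc.π ^ n := by
  unfold plcPB
  have h : inc D Lc.S₁ c / piN D Lc ^ n = inc D Lc.S₁ (c / (⟨Lc.π, Lc.memπ⟩ : FF Lc.S₁) ^ n) := by
    rw [map_div₀, map_pow]
    rfl
  rw [h, hO]
  have h2 : nm Lc ((c / (⟨Lc.π, Lc.memπ⟩ : FF Lc.S₁) ^ n : FF Lc.S₁) : Acl k Ω)
      = nm Lc c / nm Lc Lc.π ^ n := by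
    unfold nm
    rw [← norm_pow, ← norm_div]
    congr 1
    have : (((c / (⟨Lc.π, Lc.memπ⟩ : FF Lc.S₁) ^ n : FF Lc.S₁)) : Acl k Ω)
      = (c : Acl k Ω) / Lc.π ^ n := rfl
    rw [this, map_div₀, map_pow]
  rw [h2]
  exact div_le_one (pow_pos Lc.posπ n)

theorem plc_pi_mem (hO : Over D Lc B) : piN D Lc ∈ B := by
  have := (hO ⟨Lc.π, Lc.memπ⟩).2 Lc.ltπ.le
  exact this

theorem plc_mono (hO : Over D Lc B) {n m : ℕ} (h : m ≤ n) {x : NN D Lc.S₁}
    (hx : plcPB D Lc B n x) : plcPB D Lc B m x := by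
  unfold plcPB at *
  obtain ⟨d, rfl⟩ := Nat.exists_eq_add_of_le h
  have h1 : x / piN D Lc ^ m = (x / piN D Lc ^ (m + d)) * piN D Lc ^ d := by
    have := plc_piN_ne D Lc
    field_simp
    rw [pow_add]
    ring
  rw [h1]
  exact mul_mem hx (pow_mem (plc_pi_mem hO) d)

theorem plc_den [CharZero k] [IsAlgClosed Ω] (hden : ST_DEN) (hO : Over D Lc B)
    (hN : NoRoot D Lc B) (x : NN D Lc.S₁) (hx : x ∈ B) (n : ℕ) :
    ∃ c : FF Lc.S₁, plcPB D Lc B n (x - inc D Lc.S₁ c) := by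
  induction n with
  | zero =>
    refine ⟨0, ?_⟩
    unfold plcPB
    rw [map_zero, sub_zero, pow_zero, div_one]
    exact hx
  | succ n ih =>
    obtain ⟨c, hc⟩ := ih
    obtain ⟨c', hc'⟩ := hden k Ω D p Lc B hO hN _ hc
    refine ⟨c + (⟨Lc.π, Lc.memπ⟩ : FF Lc.S₁) ^ n * c', ?_⟩
    unfold plcPB
    have h1 : (x - inc D Lc.S₁ (c + (⟨Lc.π, Lc.memπ⟩ : FF Lc.S₁) ^ n * c')) / piN D Lc ^ (n + 1)
        = ((x - inc D Lc.S₁ c) / piN D Lc ^ n - inc D Lc.S₁ c') / piN D Lc := by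
      rw [map_add, map_mul, map_pow]
      have h2 : inc D Lc.S₁ (⟨Lc.π, Lc.memπ⟩ : FF Lc.S₁) = piN D Lc := rfl
      rw [h2]
      have := plc_piN_ne D Lc
      field_simp
      ring
    rw [h1]
    exact hc'

/-- the coarsening `B[1/π]` -/
def plcCN (D : Sec k Ω) (Lc : Loc k Ω p) (B : ValuationSubring (NN D Lc.S₁)) (hO : Over D Lc B) :
    ValuationSubring (NN D Lc.S₁) where
  carrier := {x | ∃ j : ℕ, piN D Lc ^ j * x ∈ B}
  mul_mem' := by
    rintro x y ⟨i, hi⟩ ⟨j, hj⟩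
    refine ⟨i + j, ?_⟩
    have : piN D Lc ^ (i + j) * (x * y) = (piN D Lc ^ i * x) * (piN D Lc ^ j * y) := by ring
    rw [this]
    exact mul_mem hi hj
  one_mem' := ⟨0, by rw [pow_zero, one_mul]; exact one_mem _⟩
  add_mem' := by
    rintro x y ⟨i, hi⟩ ⟨j, hj⟩
    refine ⟨i + j, ?_⟩
    have : piN D Lc ^ (i + j) * (x + y)
      = piN D Lc ^ j * (piN D Lc ^ i * x) + piN D Lc ^ i * (piN D Lc ^ j * y) := by ring
    rw [this]
    exact add_mem (mul_mem (pow_mem (plc_pi_mem hO) _) hi) (mul_mem (pow_mem (plc_pi_mem hO) _) hj)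
  zero_mem' := ⟨0, by rw [mul_zero]; exact zero_mem _⟩
  neg_mem' := by
    rintro x ⟨i, hi⟩
    refine ⟨i, ?_⟩
    rw [mul_neg]
    exact neg_mem hi
  mem_or_inv_mem' := by
    intro x
    rcases B.mem_or_inv_mem x with h | h
    · left
      exact ⟨0, by rw [pow_zero, one_mul]; exact h⟩
    · right
      exact ⟨0, by rw [pow_zero, one_mul]; exact h⟩

theorem plc_mem_CN (hO : Over D Lc B) {x : NN D Lc.S₁} :
    x ∈ plcCN D Lc B hO ↔ ∃ j : ℕ, piN D Lc ^ j * x ∈ B := Iff.rfl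

theorem plc_den' [CharZero k] [IsAlgClosed Ω] (hden : ST_DEN) (hO : Over D Lc B)
    (hN : NoRoot D Lc B) (x : NN D Lc.S₁) (hx : x ∈ plcCN D Lc B hO) (n : ℕ) :
    ∃ c : FF Lc.S₁, plcPB D Lc B n (x - inc D Lc.S₁ c) := by
  obtain ⟨j, hj⟩ := hx
  obtain ⟨c, hc⟩ := plc_den hden hO hN _ hj (n + j)
  refine ⟨c / (⟨Lc.π, Lc.memπ⟩ : FF Lc.S₁) ^ j, ?_⟩
  unfold plcPB at *
  have h1 : (x - inc D Lc.S₁ (c / (⟨Lc.π, Lc.memπ⟩ : FF Lc.S₁) ^ j)) / piN D Lc ^ n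
      = (piN D Lc ^ j * x - inc D Lc.S₁ c) / piN D Lc ^ (n + j) := by
    rw [map_div₀, map_pow]
    have h2 : inc D Lc.S₁ (⟨Lc.π, Lc.memπ⟩ : FF Lc.S₁) = piN D Lc := rfl
    rw [h2]
    have := plc_piN_ne D Lc
    field_simp
    ring
  rw [h1]
  exact hc

theorem plc_dist (hO : Over D Lc B) {x : NN D Lc.S₁} {n : ℕ} {c d : FF Lc.S₁}
    (hc : plcPB D Lc B n (x - inc D Lc.S₁ c)) (hd : plcPB D Lc B n (x - inc D Lc.S₁ d)) :
    ‖Lc.ι c - Lc.ι d‖ ≤ ‖Lc.ι Lc.π‖ ^ n := by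
  have h1 : plcPB D Lc B n (inc D Lc.S₁ (c - d)) := by
    have := plc_sub hd hc
    have h2 : x - inc D Lc.S₁ d - (x - inc D Lc.S₁ c) = inc D Lc.S₁ (c - d) := by
      rw [map_sub]; ring
    rw [h2] at this
    exact this
  have h3 := (plc_inc hO n (c - d)).1 h1
  unfold nm at h3
  have h4 : ((c - d : FF Lc.S₁) : Acl k Ω) = (c : Acl k Ω) - (d : Acl k Ω) := rfl
  rw [h4, map_sub] at h3
  exact h3

theorem plc_ex [CharZero k] [IsAlgClosed Ω] (hden : ST_DEN) (hO : Over D Lc B)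
    (hN : NoRoot D Lc B) (x : NN D Lc.S₁) (hx : x ∈ plcCN D Lc B hO) :
    ∃ z : ℂ_[p], ∀ (n : ℕ) (c : FF Lc.S₁), plcPB D Lc B n (x - inc D Lc.S₁ c) →
      ‖z - Lc.ι c‖ ≤ ‖Lc.ι Lc.π‖ ^ n := by
  choose c hc using fun n => plc_den' hden hO hN x hx n
  have hcs : CauchySeq (fun n => Lc.ι (c n)) := by
    refine cauchySeq_of_le_geometric ‖Lc.ι Lc.π‖ 1 Lc.ltπ ?_
    intro n
    rw [dist_eq_norm, one_mul]
    exact plc_dist hO (hc n) (plc_mono hO (Nat.le_succ n) (hc (n + 1)))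
  obtain ⟨z, hz⟩ := cauchySeq_tendsto_of_complete hcs
  refine ⟨z, fun n d hd => ?_⟩
  have h1 : Filter.Tendsto (fun m => ‖Lc.ι (c m) - Lc.ι d‖) Filter.atTop (nhds ‖z - Lc.ι d‖) :=
    (hz.sub_const _).norm
  refine le_of_tendsto h1 ?_
  filter_upwards [Filter.eventually_ge_atTop n] with m hm
  exact plc_dist hO (plc_mono hO hm (hc m)) hd

theorem plc_zero (D : Sec k Ω) (Lc : Loc k Ω p) (B : ValuationSubring (NN D Lc.S₁)) (n : ℕ) :
    plcPB D Lc B n 0 := by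
  unfold plcPB
  rw [zero_div]
  exact zero_mem _

theorem plc_small (Lc : Loc k Ω p) {a : ℂ_[p]} (K : ℝ)
    (h : ∀ n : ℕ, ‖a‖ ≤ K * ‖Lc.ι Lc.π‖ ^ n) : a = 0 := by
  have h1 : Filter.Tendsto (fun n : ℕ => K * ‖Lc.ι Lc.π‖ ^ n) Filter.atTop (nhds (K * 0)) :=
    (tendsto_pow_atTop_nhds_zero_of_lt_one (norm_nonneg _) Lc.ltπ).const_mul K
  rw [mul_zero] at h1
  have h2 : ‖a‖ ≤ 0 := ge_of_tendsto' h1 h
  exact norm_le_zero_iff.1 h2

/-- the map `φ` on the coarsening -/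
noncomputable def plcPhi [CharZero k] [IsAlgClosed Ω] (hden : ST_DEN) (hO : Over D Lc B)
    (hN : NoRoot D Lc B) (x : plcCN D Lc B hO) : ℂ_[p] :=
  Classical.choose (plc_ex hden hO hN x x.2)

theorem plc_spec [CharZero k] [IsAlgClosed Ω] (hden : ST_DEN) (hO : Over D Lc B)
    (hN : NoRoot D Lc B) (x : plcCN D Lc B hO) (n : ℕ) (c : FF Lc.S₁)
    (h : plcPB D Lc B n ((x : NN D Lc.S₁) - inc D Lc.S₁ c)) :
    ‖plcPhi hden hO hN x - Lc.ι c‖ ≤ ‖Lc.ι Lc.π‖ ^ n :=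
  Classical.choose_spec (plc_ex hden hO hN x x.2) n c h

theorem plc_inc_mem (hO : Over D Lc B) (c : FF Lc.S₁) : inc D Lc.S₁ c ∈ plcCN D Lc B hO := by
  obtain ⟨j, hj⟩ := exists_pow_lt_of_lt_one (x := (nm Lc c + 1)⁻¹)
    (by have : 0 ≤ nm Lc c := norm_nonneg _; positivity) Lc.ltπ
  refine ⟨j, ?_⟩
  have h1 : piN D Lc ^ j * inc D Lc.S₁ c = inc D Lc.S₁ ((⟨Lc.π, Lc.memπ⟩ : FF Lc.S₁) ^ j * c) := by
    rw [map_mul, map_pow]
    rfl
  rw [h1, hO]
  have h2 : nm Lc (((⟨Lc.π, Lc.memπ⟩ : FF Lc.S₁) ^ j * c : FF Lc.S₁) : Acl k Ω)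
      = ‖Lc.ι Lc.π‖ ^ j * nm Lc c := by
    unfold nm
    rw [← norm_pow, ← norm_mul]
    congr 1
    have : (((⟨Lc.π, Lc.memπ⟩ : FF Lc.S₁) ^ j * c : FF Lc.S₁) : Acl k Ω)
      = Lc.π ^ j * (c : Acl k Ω) := rfl
    rw [this, map_mul, map_pow]
  rw [h2]
  have h3 : 0 ≤ nm Lc c := norm_nonneg _
  calc ‖Lc.ι Lc.π‖ ^ j * nm Lc c ≤ (nm Lc c + 1)⁻¹ * nm Lc c :=
        mul_le_mul_of_nonneg_right hj.le h3
    _ ≤ 1 := by
        rw [inv_mul_le_iff₀ (by positivity)]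
        linarith

theorem plc_phi_inc [CharZero k] [IsAlgClosed Ω] (hden : ST_DEN) (hO : Over D Lc B)
    (hN : NoRoot D Lc B) (c : FF Lc.S₁) (x : plcCN D Lc B hO)
    (hx : (x : NN D Lc.S₁) = inc D Lc.S₁ c) : plcPhi hden hO hN x = Lc.ι c := by
  have h : plcPhi hden hO hN x - Lc.ι c = 0 := by
    refine plc_small Lc 1 (fun n => ?_)
    rw [one_mul]
    refine plc_spec hden hO hN x n c ?_
    rw [hx, sub_self]
    exact plc_zero D Lc B n
  exact sub_eq_zero.1 h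

theorem plc_phi_add [CharZero k] [IsAlgClosed Ω] (hden : ST_DEN) (hO : Over D Lc B)
    (hN : NoRoot D Lc B) (x y : plcCN D Lc B hO) :
    plcPhi hden hO hN (x + y) = plcPhi hden hO hN x + plcPhi hden hO hN y := by
  have h : plcPhi hden hO hN (x + y) - (plcPhi hden hO hN x + plcPhi hden hO hN y) = 0 := by
    refine plc_small Lc 3 (fun n => ?_)
    obtain ⟨c, hc⟩ := plc_den' hden hO hN x x.2 n
    obtain ⟨d, hd⟩ := plc_den' hden hO hN y y.2 n
    have h1 := plc_spec hden hO hN x n c hc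
    have h2 := plc_spec hden hO hN y n d hd
    have h3 := plc_spec hden hO hN (x + y) n (c + d) (by
      have h4 := plc_add hc hd
      have h5 : (x : NN D Lc.S₁) - inc D Lc.S₁ c + ((y : NN D Lc.S₁) - inc D Lc.S₁ d)
          = ((x + y : plcCN D Lc B hO) : NN D Lc.S₁) - inc D Lc.S₁ (c + d) := by
        rw [map_add]
        push_cast
        ring
      rw [h5] at h4
      exact h4)
    have h6 : Lc.ι ((c + d : FF Lc.S₁) : Acl k Ω) = Lc.ι c + Lc.ι d := by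
      rw [← map_add]; rfl
    rw [h6] at h3
    have h7 : plcPhi hden hO hN (x + y) - (plcPhi hden hO hN x + plcPhi hden hO hN y)
        = (plcPhi hden hO hN (x + y) - (Lc.ι c + Lc.ι d)) - ((plcPhi hden hO hN x - Lc.ι c)
          + (plcPhi hden hO hN y - Lc.ι d)) := by ring
    rw [h7]
    calc _ ≤ ‖plcPhi hden hO hN (x + y) - (Lc.ι c + Lc.ι d)‖ + ‖(plcPhi hden hO hN x - Lc.ι c)
          + (plcPhi hden hO hN y - Lc.ι d)‖ := norm_sub_le _ _
      _ ≤ ‖plcPhi hden hO hN (x + y) - (Lc.ι c + Lc.ι d)‖ + (‖plcPhi hden hO hN x - Lc.ι c‖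
          + ‖plcPhi hden hO hN y - Lc.ι d‖) := by gcongr; exact norm_add_le _ _
      _ ≤ 3 * ‖Lc.ι Lc.π‖ ^ n := by linarith
  exact sub_eq_zero.1 h

theorem plc_phi_mul [CharZero k] [IsAlgClosed Ω] (hden : ST_DEN) (hO : Over D Lc B)
    (hN : NoRoot D Lc B) (x y : plcCN D Lc B hO) :
    plcPhi hden hO hN (x * y) = plcPhi hden hO hN x * plcPhi hden hO hN y := by
  have h : plcPhi hden hO hN (x * y) - (plcPhi hden hO hN x * plcPhi hden hO hN y) = 0 := by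
    obtain ⟨i, hi⟩ := (plc_mem_CN hO).1 x.2
    obtain ⟨j, hj⟩ := (plc_mem_CN hO).1 y.2
    refine plc_small Lc (2 + ‖plcPhi hden hO hN x‖ + ‖plcPhi hden hO hN y‖) (fun n => ?_)
    obtain ⟨c, hc⟩ := plc_den' hden hO hN x x.2 (n + i + j)
    obtain ⟨d, hd⟩ := plc_den' hden hO hN y y.2 (n + i + j)
    have h1 := plc_spec hden hO hN x _ c hc
    have h2 := plc_spec hden hO hN y _ d hd
    have hpi := plc_pi_mem hO
    have h3 := plc_spec hden hO hN (x * y) n (c * d) (by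
      have e1 : plcPB D Lc B n (((x : NN D Lc.S₁) - inc D Lc.S₁ c) * y) := by
        unfold plcPB at hc ⊢
        have e2 : ((x : NN D Lc.S₁) - inc D Lc.S₁ c) * y / piN D Lc ^ n
            = ((x : NN D Lc.S₁) - inc D Lc.S₁ c) / piN D Lc ^ (n + i + j)
              * (piN D Lc ^ j * y) * piN D Lc ^ i := by
          have := plc_piN_ne D Lc
          rw [pow_add, pow_add]
          field_simp
        rw [e2]
        exact mul_mem (mul_mem hc hj) (pow_mem hpi i)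
      have e3 : plcPB D Lc B n (inc D Lc.S₁ c * ((y : NN D Lc.S₁) - inc D Lc.S₁ d)) := by
        unfold plcPB at hd ⊢
        have e4 : inc D Lc.S₁ c * ((y : NN D Lc.S₁) - inc D Lc.S₁ d) / piN D Lc ^ n
            = ((y : NN D Lc.S₁) - inc D Lc.S₁ d) / piN D Lc ^ (n + i + j)
              * (piN D Lc ^ i * inc D Lc.S₁ c) * piN D Lc ^ j := by
          have := plc_piN_ne D Lc
          rw [pow_add, pow_add]
          field_simp
        rw [e4]
        refine mul_mem (mul_mem hd ?_) (pow_mem hpi j)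
        have e5 : piN D Lc ^ i * inc D Lc.S₁ c = piN D Lc ^ i * x - piN D Lc ^ i *
            ((x : NN D Lc.S₁) - inc D Lc.S₁ c) := by ring
        rw [e5]
        refine sub_mem hi (mul_mem (pow_mem hpi i) ?_)
        have e6 := plc_mono hO (Nat.zero_le _) hc
        unfold plcPB at e6
        rw [pow_zero, div_one] at e6
        exact e6
      have e7 := plc_add e1 e3
      have e8 : ((x : NN D Lc.S₁) - inc D Lc.S₁ c) * y
          + inc D Lc.S₁ c * ((y : NN D Lc.S₁) - inc D Lc.S₁ d)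
          = ((x * y : plcCN D Lc B hO) : NN D Lc.S₁) - inc D Lc.S₁ (c * d) := by
        rw [map_mul]
        push_cast
        ring
      rw [e8] at e7
      exact e7)
    have h6 : Lc.ι ((c * d : FF Lc.S₁) : Acl k Ω) = Lc.ι c * Lc.ι d := by
      rw [← map_mul]; rfl
    rw [h6] at h3
    have hr0 : (0 : ℝ) ≤ ‖Lc.ι Lc.π‖ := norm_nonneg _
    have hr1 : ‖Lc.ι Lc.π‖ ^ (n + i + j) ≤ ‖Lc.ι Lc.π‖ ^ n :=
      pow_le_pow_of_le_one hr0 Lc.ltπ.le (by omega)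
    have hr2 : ‖Lc.ι Lc.π‖ ^ n ≤ 1 := pow_le_one₀ hr0 Lc.ltπ.le
    have h1' := h1.trans hr1
    have h2' := h2.trans hr1
    have h8 : ‖Lc.ι d‖ ≤ ‖plcPhi hden hO hN y‖ + 1 := by
      have : Lc.ι d = plcPhi hden hO hN y - (plcPhi hden hO hN y - Lc.ι d) := by ring
      rw [this]
      refine (norm_sub_le _ _).trans ?_
      linarith
    have h7 : plcPhi hden hO hN (x * y) - (plcPhi hden hO hN x * plcPhi hden hO hN y)
        = (plcPhi hden hO hN (x * y) - (Lc.ι c * Lc.ι d))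
          - (plcPhi hden hO hN x * (plcPhi hden hO hN y - Lc.ι d)
          + (plcPhi hden hO hN x - Lc.ι c) * Lc.ι d) := by ring
    rw [h7]
    calc _ ≤ ‖plcPhi hden hO hN (x * y) - (Lc.ι c * Lc.ι d)‖
          + ‖plcPhi hden hO hN x * (plcPhi hden hO hN y - Lc.ι d)
          + (plcPhi hden hO hN x - Lc.ι c) * Lc.ι d‖ := norm_sub_le _ _
      _ ≤ ‖Lc.ι Lc.π‖ ^ n + (‖plcPhi hden hO hN x‖ * ‖Lc.ι Lc.π‖ ^ n
          + ‖Lc.ι Lc.π‖ ^ n * (‖plcPhi hden hO hN y‖ + 1)) := by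
          refine add_le_add h3 ((norm_add_le _ _).trans ?_)
          rw [norm_mul, norm_mul]
          gcongr
      _ = (2 + ‖plcPhi hden hO hN x‖ + ‖plcPhi hden hO hN y‖) * ‖Lc.ι Lc.π‖ ^ n := by ring
  exact sub_eq_zero.1 h

/-- `φ` as a ring homomorphism -/
noncomputable def plcHom [CharZero k] [IsAlgClosed Ω] (hden : ST_DEN) (hO : Over D Lc B)
    (hN : NoRoot D Lc B) : plcCN D Lc B hO →+* ℂ_[p] where
  toFun := plcPhi hden hO hN
  map_one' := by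
    have := plc_phi_inc hden hO hN 1 (1 : plcCN D Lc B hO) (by rw [map_one]; rfl)
    rw [this]
    exact map_one _
  map_mul' := plc_phi_mul hden hO hN
  map_zero' := by
    have := plc_phi_inc hden hO hN 0 (0 : plcCN D Lc B hO) (by rw [map_zero]; rfl)
    rw [this]
    exact map_zero _
  map_add' := plc_phi_add hden hO hN

theorem plc_norm [CharZero k] [IsAlgClosed Ω] (hden : ST_DEN) (hO : Over D Lc B)
    (hN : NoRoot D Lc B) (x : plcCN D Lc B hO) (n : ℕ) :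
    ‖plcPhi hden hO hN x‖ ≤ ‖Lc.ι Lc.π‖ ^ n ↔ plcPB D Lc B n x := by
  constructor
  · intro h
    obtain ⟨c, hc⟩ := plc_den' hden hO hN x x.2 n
    have h1 := plc_spec hden hO hN x n c hc
    have h2 : ‖Lc.ι c‖ ≤ ‖Lc.ι Lc.π‖ ^ n := by
      have : Lc.ι c = plcPhi hden hO hN x - (plcPhi hden hO hN x - Lc.ι c) := by ring
      rw [this, sub_eq_add_neg]
      refine (PadicComplex.isNonarchimedean p _ _).trans ?_
      rw [norm_neg]
      exact max_le h h1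
    have h3 := (plc_inc hO n c).2 h2
    have h4 := plc_add hc h3
    rw [sub_add_cancel] at h4
    exact h4
  · intro h
    have h1 := plc_spec hden hO hN x n 0 (by rw [map_zero, sub_zero]; exact h)
    have h2 : Lc.ι ((0 : FF Lc.S₁) : Acl k Ω) = 0 := map_zero _
    rw [h2, sub_zero] at h1
    exact h1

theorem plc_phi_zero_iff [CharZero k] [IsAlgClosed Ω] (hden : ST_DEN) (hO : Over D Lc B)
    (hN : NoRoot D Lc B) (x : plcCN D Lc B hO) :
    plcPhi hden hO hN x = 0 ↔ ((x : NN D Lc.S₁) = 0 ∨ (x : NN D Lc.S₁)⁻¹ ∉ plcCN D Lc B hO) := by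
  have hpi0 := plc_piN_ne D Lc
  constructor
  · intro h
    by_cases hx : (x : NN D Lc.S₁) = 0
    · exact Or.inl hx
    · right
      rintro ⟨j, hj⟩
      have h1 : plcPB D Lc B (j + 1) x := by
        rw [← plc_norm hden hO hN, h, norm_zero]
        positivity
      unfold plcPB at h1
      have h2 : (piN D Lc)⁻¹ ∈ B := by
        have h3 : (piN D Lc)⁻¹ = (x : NN D Lc.S₁) / piN D Lc ^ (j + 1)
            * (piN D Lc ^ j * (x : NN D Lc.S₁)⁻¹) := by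
          field_simp
          ring
        rw [h3]
        exact mul_mem h1 hj
      have h4 : (piN D Lc)⁻¹ = inc D Lc.S₁ ((⟨Lc.π, Lc.memπ⟩ : FF Lc.S₁)⁻¹) := by
        rw [map_inv₀]; rfl
      rw [h4, hO] at h2
      have h5 : nm Lc (((⟨Lc.π, Lc.memπ⟩ : FF Lc.S₁)⁻¹ : FF Lc.S₁) : Acl k Ω)
          = ‖Lc.ι Lc.π‖⁻¹ := by
        unfold nm
        rw [← norm_inv, ← map_inv₀]
        rfl
      rw [h5] at h2
      have h6 : 1 < ‖Lc.ι Lc.π‖⁻¹ := (one_lt_inv₀ Lc.posπ).2 Lc.ltπ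
      linarith
  · rintro (h | h)
    · have := plc_phi_inc hden hO hN 0 x (by rw [map_zero]; exact h)
      rw [this]
      exact map_zero _
    · by_cases hx : (x : NN D Lc.S₁) = 0
      · have := plc_phi_inc hden hO hN 0 x (by rw [map_zero]; exact hx)
        rw [this]
        exact map_zero _
      · refine plc_small Lc 1 (fun n => ?_)
        rw [one_mul, plc_norm hden hO hN]
        unfold plcPB
        rcases B.mem_or_inv_mem ((x : NN D Lc.S₁) / piN D Lc ^ n) with h1 | h1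
        · exact h1
        · exfalso
          apply h
          refine ⟨n, ?_⟩
          rw [inv_div, div_eq_mul_inv] at h1
          exact h1

/-- the inclusion of the fixed field of the section -/
def plcL (D : Sec k Ω) (Lc : Loc k Ω p) : LL D →+* NN D Lc.S₁ :=
  (IntermediateField.inclusion (NN_le D (S := ∅) (S' := Lc.S₁)
    (fun _ _ _ ha => absurd ha (Set.notMem_empty _)))).toRingHom

theorem plcL_coe (D : Sec k Ω) (Lc : Loc k Ω p) (x : LL D) :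
    ((plcL D Lc x : NN D Lc.S₁) : Ω) = (x : Ω) := rfl

theorem plcL_alg (D : Sec k Ω) (Lc : Loc k Ω p) (c : k) :
    plcL D Lc (algebraMap k (LL D) c) = inc D Lc.S₁ (algebraMap k (FF Lc.S₁) c) := rfl

theorem plc_close [CharZero k] [IsAlgClosed Ω] (hden : ST_DEN) (hO : Over D Lc B)
    (hN : NoRoot D Lc B) (x : plcCN D Lc B hO) (hx : plcPhi hden hO hN x ≠ 0) (m : ℕ) (δ : ℝ)
    (hδ : 0 < δ) :
    ∃ (c : FF Lc.S₁) (b : NN D Lc.S₁), c ≠ 0 ∧ b ∈ B ∧
      ‖Lc.ι c - plcPhi hden hO hN x‖ < δ ∧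
      (x : NN D Lc.S₁) = inc D Lc.S₁ c * (1 + piN D Lc ^ m * b) := by
  have hxn : 0 < ‖plcPhi hden hO hN x‖ := norm_pos_iff.2 hx
  obtain ⟨i, hi⟩ := exists_pow_lt_of_lt_one hxn Lc.ltπ
  obtain ⟨j, hj⟩ := exists_pow_lt_of_lt_one hδ Lc.ltπ
  obtain ⟨c, hc⟩ := plc_den' hden hO hN x x.2 (m + i + j)
  have h1 := plc_spec hden hO hN x _ c hc
  have hr0 : (0 : ℝ) ≤ ‖Lc.ι Lc.π‖ := norm_nonneg _
  have hri : ‖Lc.ι Lc.π‖ ^ (m + i + j) ≤ ‖Lc.ι Lc.π‖ ^ i :=
    pow_le_pow_of_le_one hr0 Lc.ltπ.le (by omega)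
  have hrj : ‖Lc.ι Lc.π‖ ^ (m + i + j) ≤ ‖Lc.ι Lc.π‖ ^ j :=
    pow_le_pow_of_le_one hr0 Lc.ltπ.le (by omega)
  have h2 : ‖Lc.ι Lc.π‖ ^ i ≤ ‖Lc.ι c‖ := by
    by_contra hcon
    rw [not_le] at hcon
    have h3 : plcPhi hden hO hN x = (plcPhi hden hO hN x - Lc.ι c) + Lc.ι c := by ring
    have h4 : ‖plcPhi hden hO hN x‖ ≤ max ‖plcPhi hden hO hN x - Lc.ι c‖ ‖Lc.ι c‖ := by
      conv_lhs => rw [h3]
      exact PadicComplex.isNonarchimedean p _ _
    have h5 : max ‖plcPhi hden hO hN x - Lc.ι c‖ ‖Lc.ι c‖ ≤ ‖Lc.ι Lc.π‖ ^ i :=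
      max_le (h1.trans hri) hcon.le
    linarith
  have hc0 : c ≠ 0 := by
    rintro rfl
    have : Lc.ι ((0 : FF Lc.S₁) : Acl k Ω) = 0 := map_zero _
    rw [this, norm_zero] at h2
    have := pow_pos Lc.posπ i
    linarith
  have hinc0 : inc D Lc.S₁ c ≠ 0 := by
    intro h
    apply hc0
    have := (inc D Lc.S₁).toRingHom.injective
    exact this (h.trans (map_zero _).symm)
  have hpi0 := plc_piN_ne D Lc
  refine ⟨c, ((x : NN D Lc.S₁) - inc D Lc.S₁ c) / (inc D Lc.S₁ c * piN D Lc ^ m), hc0, ?_, ?_, ?_⟩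
  · have h3 : ((x : NN D Lc.S₁) - inc D Lc.S₁ c) / (inc D Lc.S₁ c * piN D Lc ^ m)
        = ((x : NN D Lc.S₁) - inc D Lc.S₁ c) / piN D Lc ^ (m + i + j)
          * (piN D Lc ^ i / inc D Lc.S₁ c) * piN D Lc ^ j := by
      rw [pow_add, pow_add]
      field_simp
    rw [h3]
    refine mul_mem (mul_mem hc ?_) (pow_mem (plc_pi_mem hO) j)
    have h4 : piN D Lc ^ i / inc D Lc.S₁ c
        = inc D Lc.S₁ ((⟨Lc.π, Lc.memπ⟩ : FF Lc.S₁) ^ i / c) := by
      rw [map_div₀, map_pow]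
      rfl
    rw [h4, hO]
    have h5 : nm Lc (((⟨Lc.π, Lc.memπ⟩ : FF Lc.S₁) ^ i / c : FF Lc.S₁) : Acl k Ω)
        = ‖Lc.ι Lc.π‖ ^ i / ‖Lc.ι c‖ := by
      unfold nm
      rw [← norm_pow, ← norm_div]
      congr 1
      have : (((⟨Lc.π, Lc.memπ⟩ : FF Lc.S₁) ^ i / c : FF Lc.S₁) : Acl k Ω)
        = Lc.π ^ i / (c : Acl k Ω) := rfl
      rw [this, map_div₀, map_pow]
    rw [h5]
    exact div_le_one_of_le₀ h2 (norm_nonneg _)
  · rw [norm_sub_rev]
    exact (h1.trans hrj).trans_lt hj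
  · field_simp
    ring

theorem st_PLC (hden : ST_DEN) (hpow : ST_POW) (hroot : ST_ROOT) : ST_PLC := by
  intro k Ω _ _ _ _ _ D p _ Lc B hO hN
  refine ⟨{
    C := (plcCN D Lc B hO).comap (plcL D Lc)
    φ := (plcHom hden hO hN).comp
      ((plcL D Lc).restrict ((plcCN D Lc B hO).comap (plcL D Lc)) (plcCN D Lc B hO)
        (fun x hx => hx))
    base := ?_
    ker := ?_
    E := Lc.E
    finE := Lc.finE
    kum := ?_ }, rfl⟩
  · intro c
    refine ⟨?_, ?_⟩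
    · change plcL D Lc (algebraMap k (LL D) c) ∈ plcCN D Lc B hO
      rw [plcL_alg]
      exact plc_inc_mem hO _
    · exact plc_phi_inc hden hO hN (algebraMap k (FF Lc.S₁) c) _ rfl
  · intro x
    have h1 := plc_phi_zero_iff hden hO hN
      ((plcL D Lc).restrict ((plcCN D Lc B hO).comap (plcL D Lc)) (plcCN D Lc B hO)
        (fun x hx => hx) x)
    have h2 : plcL D Lc (x : LL D) = 0 ↔ (x : LL D) = 0 := map_eq_zero _
    have h3 : (plcL D Lc (x : LL D))⁻¹ ∈ plcCN D Lc B hO ↔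
        (x : LL D)⁻¹ ∈ (plcCN D Lc B hO).comap (plcL D Lc) := by
      rw [ValuationSubring.mem_comap, map_inv₀]
    rw [← h3, ← h2]
    exact h1
  · intro x hx M hM δ hδ c g hxc
    obtain ⟨m, hm⟩ := hpow k Ω D p Lc B hO hN M hM
    obtain ⟨c1, b, hc1, hb, hclose, hxb⟩ := plc_close hden hO hN _ hx m δ hδ
    obtain ⟨y, hy⟩ := hm b hb
    rw [hy] at hxb
    have hx0 : (x : LL D) ≠ 0 := by
      intro h
      apply hx
      have := plc_phi_inc hden hO hN 0 ((plcL D Lc).restrict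
        ((plcCN D Lc B hO).comap (plcL D Lc)) (plcCN D Lc B hO) (fun x hx => hx) x) (by
          change plcL D Lc (x : LL D) = _
          rw [h, map_zero, map_zero])
      have h2 : Lc.ι ((0 : FF Lc.S₁) : Acl k Ω) = 0 := map_zero _
      rw [h2] at this
      exact this
    have hg0 : g ≠ 0 := by
      rintro rfl
      rw [zero_pow hM.ne', mul_zero] at hxc
      exact hx0 hxc
    have hgN : plcL D Lc g ≠ 0 := (map_ne_zero _).2 hg0
    have hinc1 : inc D Lc.S₁ c1 ≠ 0 := (map_ne_zero _).2 hc1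
    have e1 : plcL D Lc (x : LL D) = inc D Lc.S₁ (algebraMap k (FF Lc.S₁) c) * plcL D Lc g ^ M := by
      rw [hxc, map_mul, map_pow, plcL_alg]
    have e2 : inc D Lc.S₁ c1 * y ^ M
        = inc D Lc.S₁ (algebraMap k (FF Lc.S₁) c) * plcL D Lc g ^ M := by
      rw [← e1]
      exact hxb.symm
    have e3 : (y / plcL D Lc g) ^ M = inc D Lc.S₁ (algebraMap k (FF Lc.S₁) c / c1) := by
      rw [map_div₀, div_pow, div_eq_div_iff (pow_ne_zero _ hgN) hinc1, mul_comm (y ^ M), e2]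
    obtain ⟨d, hd⟩ := hroot k Ω D Lc.S₁ M hM _ _ e3
    rw [hd, ← map_pow] at e3
    have e4 : d ^ M = algebraMap k (FF Lc.S₁) c / c1 := (inc D Lc.S₁).toRingHom.injective e3
    refine ⟨Lc.ι d, Lc.rng _ d.2, Lc.ι c1, Lc.rng _ c1.2, hclose, ?_⟩
    have e5 : algebraMap k (FF Lc.S₁) c = c1 * d ^ M := by
      rw [e4]
      field_simp
    have e6 : algebraMap k (Acl k Ω) c = (c1 : Acl k Ω) * (d : Acl k Ω) ^ M := by
      have := congrArg (fun t : FF Lc.S₁ => (t : Acl k Ω)) e5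
      exact this
    change Lc.ι (algebraMap k (Acl k Ω) c) = _
    rw [e6, map_mul, map_pow]

end

end Pool.Agent.Helper14.BSC
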